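import Pool.Agent.H27.L1.H17.GHK.WEA
import Pool.Agent.H27.L1.H44.GMF.HAR
import Pool.Agent.H27.L1.H34.GM.PWC
import Pool.Agent.H27.L1.H34.GM.HAC

/-!
Board ghk (MP_52e316_nt), row WEY, second copy, part 2: Weyl invariance of the spherical transform.
-/

set_option autoImplicit false

namespace Pool.Agent.H27.L1.H17.GHK

open MeasureTheory Real Pool.Agent.H27.L1.H34.GM Pool.Agent.H27.L1.H14.GHK Pool.Agent.H27.L1.H47.GHK Pool.Agent.H27.L1.H5.GHK

variable {m n : ℕ}

theorem hac (hm1 : 1 ≤ m) {a : Mat m} (ha : a.det ≠ 0) (f : V m → ℂ) :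
    ∫ z, f (fun i j => (mt z * a) i j) ∂(hm m) = ∫ z, f z ∂(hm m) :=
  ((pf_HAC Pool.Agent.H27.L1.H44.GMF.pf_HAR m hm1).1 a ha f).2

theorem mnr_meas (m j : ℕ) : Measurable fun z : V m => mnr (mt z) j := by
  unfold mnr
  by_cases h : j ≤ m
  · simp only [h, dif_pos]
    refine Continuous.measurable (Continuous.matrix_det ?_)
    refine Continuous.matrix_submatrix ?_ _ _
    exact Continuous.matrix_mul (Continuous.matrix_transpose continuous_id) continuous_id
  · simp only [h, dif_neg, not_false_eq_true]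
    exact measurable_const

theorem pw_meas (mu : Fin m → ℂ) : Measurable fun z : V m => pw mu (mt z) := by
  unfold pw
  refine Finset.measurable_prod _ fun j _ => ?_
  exact (Complex.measurable_ofReal.comp
    ((mnr_meas m ((j : ℕ) + 1)).div (mnr_meas m (j : ℕ)))).pow_const _

/-- the region of support -/
def Kc (m : ℕ) (c : ℝ) : Set (V m) := {z | sz (mt z) ≤ c ∧ c⁻¹ ≤ |(mt z).det|}

theorem Kc_cpt (c : ℝ) : IsCompact (Kc m c) := by
  refine Metric.isCompact_of_isClosed_isBounded ?_ ?_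
  · have h1 : IsClosed {z : V m | ‖z‖ ≤ c} := isClosed_le continuous_norm continuous_const
    have h2 : IsClosed {z : V m | c⁻¹ ≤ |(mt z).det|} :=
      isClosed_le continuous_const hac_cont_det.abs
    exact h1.inter h2
  · refine (Metric.isBounded_closedBall (x := (0 : V m)) (r := c)).subset fun z hz => ?_
    rw [mem_closedBall_zero_iff]
    exact hz.1

theorem rot_mul_cont (p q : Fin m) :
    Continuous (fun x : ℝ × V m => mt x.2 * rot p q x.1) := by
  have h1 : Continuous (fun x : ℝ × V m => (mt x.2 : Mat m)) :=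
    (continuous_id : Continuous (fun z : V m => (mt z : Mat m))).comp continuous_snd
  exact Continuous.matrix_mul h1 ((rot_cont p q).comp continuous_fst)

theorem int_prod (hm1 : 1 ≤ m) (h : n + 1 < m) (mu : Fin m → ℂ) {k : Mat m → ℂ} (hk : Tst m k) :
    Integrable (Function.uncurry fun (θ : ℝ) (z : V m) =>
      k (mt z) * pw mu (mt z * rot ⟨n, Nat.lt_of_succ_lt h⟩ ⟨n + 1, h⟩ θ))
      (((volume : Measure ℝ).restrict (Set.Ioc (-(π / 2)) (π / 2))).prod (hm m)) := by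
  have : SFinite (hm m) := by unfold hm; infer_instance
  obtain ⟨p, hp⟩ : ∃ p : Fin m, p = ⟨n, Nat.lt_of_succ_lt h⟩ := ⟨_, rfl⟩
  obtain ⟨q, hq⟩ : ∃ q : Fin m, q = ⟨n + 1, h⟩ := ⟨_, rfl⟩
  have hdet : ∀ θ, (rot p q θ).det ≠ 0 := fun θ => by
    rw [hp, hq]
    exact det_rot_ne h θ
  rw [← hp, ← hq]
  obtain ⟨c, hc, hs⟩ := hk.supp
  -- measurability
  have hm1' : Measurable (Function.uncurry fun (θ : ℝ) (z : V m) =>
      k (mt z) * pw mu (mt z * rot p q θ)) := by
    have h1 : Measurable (fun x : ℝ × V m => k (mt x.2)) := by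
      have : Continuous (fun x : ℝ × V m => k (mt x.2)) :=
        hk.cont.comp ((continuous_id : Continuous (fun z : V m => (mt z : Mat m))).comp
          continuous_snd)
      exact this.measurable
    have h2 : Measurable (fun x : ℝ × V m =>
        ((fun i j => (mt x.2 * rot p q x.1) i j : V m))) := by
      have : Continuous (fun x : ℝ × V m => ((fun i j => (mt x.2 * rot p q x.1) i j : V m))) :=
        rot_mul_cont p q
      exact this.measurable
    exact h1.mul ((pw_meas mu).comp h2)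
  -- bound
  have hcont : ContinuousOn (fun x : ℝ × V m => k (mt x.2) * pw mu (mt x.2 * rot p q x.1))
      (Set.Icc (-(π / 2)) (π / 2) ×ˢ Kc m c) := by
    have h1 : Continuous (fun x : ℝ × V m => k (mt x.2)) :=
      hk.cont.comp ((continuous_id : Continuous (fun z : V m => (mt z : Mat m))).comp
        continuous_snd)
    refine h1.continuousOn.mul ?_
    refine ContinuousOn.comp (g := fun z : Mat m => pw mu z) (t := {z : Mat m | z.det ≠ 0})
      (f := fun x : ℝ × V m => mt x.2 * rot p q x.1) (pf_PWC m hm1 mu).1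
      (rot_mul_cont p q).continuousOn ?_
    intro x hx
    show (mt x.2 * rot p q x.1).det ≠ 0
    rw [Matrix.det_mul]
    refine mul_ne_zero ?_ (hdet _)
    have h3 : c⁻¹ ≤ |(mt x.2).det| := hx.2.2
    have h4 : 0 < |(mt x.2).det| := lt_of_lt_of_le (inv_pos.2 hc) h3
    exact abs_pos.1 h4
  obtain ⟨M, hM⟩ := (isCompact_Icc.prod (Kc_cpt c)).exists_bound_of_continuousOn hcont
  have hfin : hm m (Kc m c) < ⊤ := (Pool.Agent.H27.L1.H44.GMF.pf_HAR m hm1).2.2.2 c hc
  have hKm : MeasurableSet (Kc m c) := (Kc_cpt c).isClosed.measurableSet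
  have hset : MeasurableSet ((Set.univ : Set ℝ) ×ˢ Kc m c) := MeasurableSet.univ.prod hKm
  have hg : Integrable (((Set.univ : Set ℝ) ×ˢ Kc m c).indicator (fun _ : ℝ × V m => M))
      (((volume : Measure ℝ).restrict (Set.Ioc (-(π / 2)) (π / 2))).prod (hm m)) := by
    rw [integrable_indicator_iff hset]
    refine integrableOn_const ?_ (by simp)
    rw [Measure.prod_prod]
    exact (ENNReal.mul_lt_top (by simp) hfin).ne
  refine hg.mono' hm1'.aestronglyMeasurable ?_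
  have hae : ∀ᵐ x ∂(((volume : Measure ℝ).restrict (Set.Ioc (-(π / 2)) (π / 2))).prod (hm m)),
      x.1 ∈ Set.Ioc (-(π / 2)) (π / 2) := by
    have h1 : ∀ᵐ θ ∂((volume : Measure ℝ).restrict (Set.Ioc (-(π / 2)) (π / 2))),
        θ ∈ Set.Ioc (-(π / 2)) (π / 2) := ae_restrict_mem measurableSet_Ioc
    exact Measure.quasiMeasurePreserving_fst.ae h1
  filter_upwards [hae] with x hx
  by_cases hz : x.2 ∈ Kc m c
  · rw [Set.indicator_of_mem (Set.mk_mem_prod (Set.mem_univ _) hz)]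
    exact hM x ⟨Set.Ioc_subset_Icc_self hx, hz⟩
  · rw [Set.indicator_of_notMem (fun h' => hz h'.2)]
    have h0 : k (mt x.2) = 0 := by
      by_contra h0
      exact hz (hs _ h0)
    show ‖k (mt x.2) * pw mu (mt x.2 * rot p q x.1)‖ ≤ 0
    rw [h0, zero_mul, norm_zero]

theorem avg_hm (hm1 : 1 ≤ m) (h : n + 1 < m) (mu : Fin m → ℂ) {k : Mat m → ℂ} (hk : Tst m k) :
    (π : ℂ) * ∫ z, k (mt z) * pw mu (mt z) ∂(hm m) =
      ∫ z, k (mt z) * (∫ θ in (-(π / 2))..(π / 2),
        pw mu (mt z * rot ⟨n, Nat.lt_of_succ_lt h⟩ ⟨n + 1, h⟩ θ)) ∂(hm m) := by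
  have : SFinite (hm m) := by unfold hm; infer_instance
  have hle : -(π / 2) ≤ π / 2 := by linarith [Real.pi_pos]
  have h1 : ∀ θ : ℝ, ∫ z, k (mt z) * pw mu (mt z * rot ⟨n, Nat.lt_of_succ_lt h⟩ ⟨n + 1, h⟩ θ)
      ∂(hm m) = ∫ z, k (mt z) * pw mu (mt z) ∂(hm m) := by
    intro θ
    rw [← hac hm1 (det_rot_ne h θ) (fun z => k (mt z) * pw mu (mt z))]
    refine integral_congr_ae (Filter.Eventually.of_forall fun z => ?_)
    show k (mt z) * pw mu (mt z * rot ⟨n, Nat.lt_of_succ_lt h⟩ ⟨n + 1, h⟩ θ) =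
      k (mt z * rot ⟨n, Nat.lt_of_succ_lt h⟩ ⟨n + 1, h⟩ θ) *
        pw mu (mt z * rot ⟨n, Nat.lt_of_succ_lt h⟩ ⟨n + 1, h⟩ θ)
    rw [hk.right _ (rot_orth (pq_ne h) θ)]
  have h2 : ∫ θ in (-(π / 2))..(π / 2),
      (∫ z, k (mt z) * pw mu (mt z * rot ⟨n, Nat.lt_of_succ_lt h⟩ ⟨n + 1, h⟩ θ) ∂(hm m)) =
      (π : ℂ) * ∫ z, k (mt z) * pw mu (mt z) ∂(hm m) := by
    simp only [h1]
    rw [intervalIntegral.integral_const, Complex.real_smul]
    congr 2
    ring
  rw [← h2, intervalIntegral.integral_of_le hle, integral_integral_swap (int_prod hm1 h mu hk)]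
  refine integral_congr_ae (Filter.Eventually.of_forall fun z => ?_)
  show ∫ θ in Set.Ioc (-(π / 2)) (π / 2),
    k (mt z) * pw mu (mt z * rot ⟨n, Nat.lt_of_succ_lt h⟩ ⟨n + 1, h⟩ θ) = _
  rw [← intervalIntegral.integral_of_le hle, intervalIntegral.integral_const_mul]

theorem swap_adj (hm1 : 1 ≤ m) (h : n + 1 < m) (mu : Fin m → ℂ) {k : Mat m → ℂ}
    (hk : Tst m k) :
    ∫ z, k (mt z) * pw (mu ∘ Equiv.swap (⟨n, Nat.lt_of_succ_lt h⟩ : Fin m) ⟨n + 1, h⟩) (mt z)
      ∂(hm m) = ∫ z, k (mt z) * pw mu (mt z) ∂(hm m) := by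
  have hpi : (π : ℂ) ≠ 0 := Complex.ofReal_ne_zero.2 Real.pi_pos.ne'
  refine mul_left_cancel₀ hpi ?_
  rw [avg_hm hm1 h _ hk, avg_hm hm1 h _ hk]
  refine integral_congr_ae (Filter.Eventually.of_forall fun z => ?_)
  show k (mt z) * _ = k (mt z) * _
  by_cases hz : (mt z).det = 0
  · have h0 : k (mt z) = 0 := by
      by_contra h0
      obtain ⟨c, hc, hs⟩ := hk.supp
      have h1 := (hs _ h0).2
      rw [hz, abs_zero] at h1
      exact absurd (inv_pos.2 hc) (not_lt.2 h1)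
    rw [h0, zero_mul, zero_mul]
  · rw [avg_swap h (mt z) hz mu]

/-- WEY -/
theorem pf_WEY : T_WEY := by
  intro m mu σ k hm1 hk
  obtain ⟨m', rfl⟩ : ∃ m', m = m' + 1 := ⟨m - 1, by omega⟩
  have hσ : σ ∈ Submonoid.closure
      (Set.range fun i : Fin m' => Equiv.swap i.castSucc i.succ) := by
    rw [Equiv.Perm.mclosure_swap_castSucc_succ]
    exact Submonoid.mem_top σ
  revert mu
  refine Submonoid.closure_induction (motive := fun (σ : Equiv.Perm (Fin (m' + 1))) _ => ∀ mu : Fin (m' + 1) → ℂ,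
    ∫ z, k (mt z) * pw (mu ∘ σ) (mt z) ∂(hm (m' + 1)) =
      ∫ z, k (mt z) * pw mu (mt z) ∂(hm (m' + 1))) ?_ ?_ ?_ hσ
  · rintro _ ⟨i, rfl⟩ mu
    exact swap_adj (n := (i : ℕ)) hm1 (by have := i.isLt; omega) mu hk
  · intro mu
    rfl
  · intro a b _ _ ha hb mu
    have e1 : mu ∘ ((a * b : Equiv.Perm (Fin (m' + 1)))) = (mu ∘ a) ∘ b := rfl
    rw [e1, hb (mu ∘ a), ha mu]

end Pool.Agent.H27.L1.H17.GHK
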